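import Pool.Agent.H66.IP.TB
import Pool.Agent.H3.XQ.RIX

/-!
# Row SYX of the board `ipf_modules`: the copies say the bit with high probability
-/

set_option autoImplicit false

namespace Pool.Agent.H32.IP

open Finset Pool.Agent.H6.NB Pool.Agent.H70.EH Pool.Agent.H78.XQ Pool.Agent.H66.IP

theorem syx_pow (l : ℕ) (hl : 16 ≤ l) : l ^ 4 ≤ 2 ^ l := by
  induction l, hl using Nat.le_induction with
  | base => norm_num
  | succ l hl ih =>
    have h1 : 16 * l ^ 3 ≤ l ^ 4 := by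
      calc 16 * l ^ 3 ≤ l * l ^ 3 := Nat.mul_le_mul_right _ hl
        _ = l ^ 4 := by ring
    have h2 : 16 * l ^ 2 ≤ l ^ 3 := by
      calc 16 * l ^ 2 ≤ l * l ^ 2 := Nat.mul_le_mul_right _ hl
        _ = l ^ 3 := by ring
    have h3 : 16 * l ≤ l ^ 2 := by
      calc 16 * l ≤ l * l := Nat.mul_le_mul_right _ hl
        _ = l ^ 2 := by ring
    calc (l + 1) ^ 4 = l ^ 4 + 4 * l ^ 3 + 6 * l ^ 2 + 4 * l + 1 := by ring
      _ ≤ 2 * l ^ 4 := by omega
      _ ≤ 2 * 2 ^ l := Nat.mul_le_mul_left _ ih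
      _ = 2 ^ (l + 1) := by rw [pow_succ]; ring

theorem syx_exp (l : ℕ) (x : ℝ) (hx : (l : ℝ) ≤ x) : Real.exp (-x) ≤ 1 / 2 ^ l := by
  have h1 : Real.exp (-x) ≤ Real.exp (-(l : ℝ)) := Real.exp_le_exp.2 (by linarith)
  refine h1.trans ?_
  rw [Real.exp_neg, ← one_div]
  refine one_div_le_one_div_of_le (by positivity) ?_
  have h2 : Real.exp (l : ℝ) = Real.exp 1 ^ l := by
    rw [← Real.exp_nat_mul, mul_one]
  rw [h2]
  refine pow_le_pow_left₀ (by norm_num) ?_ l
  have := Real.add_one_le_exp (1 : ℝ)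
  linarith

theorem pf_SYX (hCHA : Pool.Agent.H70.EH.T_CHA) (hPHV : Pool.Agent.H70.EH.T_PHV)
    (hMUV : Pool.Agent.H70.EH.T_MUV) (hPHB : Pool.Agent.H6.NB.T_PHB)
    (hPHU : Pool.Agent.H6.NB.T_PHU) : T_SYX := by
  classical
  intro r l q R n hS b
  have hl : 128000 ≤ l := by
    refine le_trans ?_ hS.l_ge
    have h1 : 20 ^ 3 ≤ r ^ 3 := Nat.pow_le_pow_left hS.r_ge 3
    omega
  cases b with
  | false =>
    have h1 := Pool.Agent.H3.XQ.chx_false hCHA hMUV hPHB hPHU q l hS.q_eq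
    have h2 : (l : ℝ) ≤ 2 ^ (2 * l) * (1 / 2 ^ l) / 2 := by
      have h3 : (2 : ℝ) ^ (2 * l) * (1 / 2 ^ l) / 2 = 2 ^ l / 2 := by
        rw [two_mul, pow_add]
        field_simp
      rw [h3, le_div_iff₀ (by norm_num)]
      have h4 := syx_pow l (by omega)
      have h5 : l * 2 ≤ l ^ 4 := by
        calc l * 2 ≤ l * l ^ 3 := Nat.mul_le_mul_left _ (by
              have h6 : l ^ 1 ≤ l ^ 3 := Nat.pow_le_pow_right (by omega) (by norm_num)
              rw [pow_one] at h6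
              omega)
          _ = l ^ 4 := by ring
      exact_mod_cast h5.trans h4
    refine le_trans (le_of_eq (sum_congr rfl fun P _ => ?_)) (h1.trans (syx_exp l _ h2))
    by_cases h : SayX q l false P
    · simp [h]
    · simp [h]
  | true =>
    have h1 := Pool.Agent.H17.EH.che hCHA hPHV hMUV hPHB hPHU (Fin (2 * l) → Bool) q true
      (by rw [hS.q_eq]; omega)
    have hcard : (Fintype.card (Fin (2 * l) → Bool) : ℝ) = 2 ^ (2 * l) := by
      rw [Fintype.card_fun, Fintype.card_bool, Fintype.card_fin]; push_cast; ring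
    rw [hcard] at h1
    have h2 : (l : ℝ) ≤ 2 ^ (2 * l) * eps2 q ^ 2 / 64 := by
      unfold eps2
      have h3 : (2 : ℝ) ^ (2 * l) * (1 / (8 * ((q : ℝ) + 3))) ^ 2 / 64 =
          2 ^ (2 * l) / (4096 * ((q : ℝ) + 3) ^ 2) := by
        field_simp
        norm_num
      rw [h3, le_div_iff₀ (by positivity)]
      have h4 := syx_pow l (by omega)
      have h5 : 2 ^ 19 ≤ 2 ^ l := Nat.pow_le_pow_right (by norm_num) (by omega)
      have h6 : q + 3 ≤ 11 * l := by rw [hS.q_eq]; omega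
      have h7 : l * (4096 * (q + 3) ^ 2) ≤ 2 ^ (2 * l) := by
        calc l * (4096 * (q + 3) ^ 2) ≤ l * (4096 * (11 * l) ^ 2) :=
              Nat.mul_le_mul_left _ (Nat.mul_le_mul_left _ (Nat.pow_le_pow_left h6 2))
          _ = 495616 * l ^ 3 := by ring
          _ ≤ 2 ^ 19 * l ^ 4 := Nat.mul_le_mul (by norm_num)
              (Nat.pow_le_pow_right (by omega) (by norm_num))
          _ ≤ 2 ^ l * 2 ^ l := Nat.mul_le_mul h5 h4
          _ = 2 ^ (2 * l) := by rw [two_mul, pow_add]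
      exact_mod_cast h7
    refine le_trans (le_of_eq (sum_congr rfl fun P _ => ?_)) (h1.trans (syx_exp l _ h2))
    by_cases h : SayX q l true P
    · rw [if_pos h, if_pos ((Pool.Agent.H3.XQ.sayX_true q l P).1 h)]
    · rw [if_neg h, if_neg fun h' => h ((Pool.Agent.H3.XQ.sayX_true q l P).2 h')]

end Pool.Agent.H32.IP
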