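import Pool.Agent.H66.IP.TC

/-!
# Row GFL of the board `ipf_modules`: short games do not see the blocks of larger scale
-/

set_option autoImplicit false

namespace Pool.Agent.H32.IP

open Finset Pool.Agent.H6.NB Pool.Agent.H70.OQ Pool.Agent.H70.EH Pool.Agent.H70.EI
open Pool.Agent.H78.XQ Pool.Agent.H66.IP
open Pool.Agent.H75.OM (BPos)

theorem pf_GFL (hGTR : T_GTR) (hIZU : T_IZU) (hSPF : T_SPF) (hBFG : T_BFG) : T_GFL := by
  intro V n G hm hq E O hO P g p h b hn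
  obtain ⟨-, -, hSz, -, -, -⟩ := hSPF V
  obtain ⟨hI, -⟩ := hIZU (dm V) E O hO
  obtain ⟨-, hI2, hI3⟩ := hI P g p h
  have hq2 : G.qry ≤ 2 ^ n := by omega
  refine hBFG (scl V p) _ _ _ _ (hSz p) n b
    (fun c => G.val (O (Function.update P ⟨p, h⟩ c) g)) hn ?_ ?_
  · intro P' u h'
    obtain ⟨t, h1, h2, h3, h4⟩ := hGTR _ G _ (hI2 (P', h') u)
    exact ⟨t, by omega, by omega, by omega, fun y => (h4 y).symm⟩
  · intro P'
    obtain ⟨t, h1, h2, h3, h4⟩ := hGTR _ G _ (hI3 (P', fun _ => false))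
    exact ⟨t, by omega, fun y => (h4 y).symm⟩

end Pool.Agent.H32.IP
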