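import Pool.Agent.H66.IP.TC

/-!
# Row IZU of the board `ipf_modules`: how the oracle depends on one block and on the default
-/

set_option autoImplicit false

namespace Pool.Agent.H32.IP

open Finset Pool.Agent.H6.NB Pool.Agent.H70.OQ Pool.Agent.H70.EH Pool.Agent.H70.EI
open Pool.Agent.H78.XQ Pool.Agent.H66.IP
open Pool.Agent.H75.OM (BPos)

variable {V : ℕ → ATM} {E : Finset (ℕ × List Bool)}
  {O : (∀ p : {a // a ∈ E}, CP V p.1) → (List Bool → Bool) → List Bool → Bool}

/-- the value at a position of a copy -/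
theorem izu_pos (hO : IsZ V E O) (P : ∀ p : {a // a ∈ E}, CP V p.1) (g : List Bool → Bool)
    (p : ℕ × List Bool) (h : p ∈ E) (u : Fin (2 * (hm V p).length) → Bool)
    (v : Fin (qs (hm V p)) → Bool) (b : Bool) :
    O P g (pos (hm V p) (List.ofFn u) (List.ofFn v) b) = (P ⟨p, h⟩).1 u (b, v) := by
  rw [← hO.blk P g p h]
  rfl

/-- the value at a position of the correction string -/
theorem izu_wps (hO : IsZ V E O) (P : ∀ p : {a // a ∈ E}, CP V p.1) (g : List Bool → Bool)
    (p : ℕ × List Bool) (h : p ∈ E) (z : Fin (wln (hm V p)) → Bool) :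
    O P g (wps (hm V p) (List.ofFn z)) = (P ⟨p, h⟩).2 z := by
  rw [← hO.cor P g p h]
  rfl

/-- the values outside the block do not depend on the content of the block -/
theorem izu_out (hO : IsZ V E O) (P : ∀ p : {a // a ∈ E}, CP V p.1) (g : List Bool → Bool)
    (p : ℕ × List Bool) (h : p ∈ E) (w : List Bool) (c : CP V p) (hw : ¬ BPos V p w) :
    O (Function.update P ⟨p, h⟩ c) g w = O P g w := by
  by_cases hE : ∃ p' ∈ E, BPos V p' w
  · obtain ⟨p', h', hb⟩ := hE
    have hne : (⟨p', h'⟩ : {a // a ∈ E}) ≠ ⟨p, h⟩ := by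
      intro he
      have : p' = p := congrArg Subtype.val he
      exact hw (this ▸ hb)
    rcases hb with ⟨u, v, b, rfl⟩ | ⟨z, rfl⟩
    · rw [izu_pos hO _ g p' h', izu_pos hO _ g p' h', Function.update_of_ne hne]
    · rw [izu_wps hO _ g p' h', izu_wps hO _ g p' h', Function.update_of_ne hne]
  · have hE' : ∀ p' ∈ E, ¬ BPos V p' w := fun p' h' hb => hE ⟨p', h', hb⟩
    rw [hO.out w hE', hO.out w hE']

theorem pf_IZU : T_IZU := by
  intro V E O hO
  refine ⟨fun P g p h => ⟨fun w c hw => izu_out hO P g p h w c hw, ?_, ?_⟩, ?_⟩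
  · intro c u w
    by_cases hb : BPos V p w
    · rcases hb with ⟨u', v, b, rfl⟩ | ⟨z, rfl⟩
      · by_cases hu : u' = u
        · right
          refine ⟨(b, v), fun y => ?_⟩
          simp only [izu_pos hO _ g p h, Function.update_self, hu]
        · left
          refine ⟨c.1 u' (b, v), fun y => ?_⟩
          simp only [izu_pos hO _ g p h, Function.update_self, Function.update_of_ne hu]
      · left
        refine ⟨c.2 z, fun y => ?_⟩
        simp only [izu_wps hO _ g p h, Function.update_self]
    · left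
      exact ⟨O P g w, fun y => izu_out hO P g p h w _ hb⟩
  · intro c w
    by_cases hb : BPos V p w
    · rcases hb with ⟨u', v, b, rfl⟩ | ⟨z, rfl⟩
      · left
        refine ⟨c.1 u' (b, v), fun y => ?_⟩
        simp only [izu_pos hO _ g p h, Function.update_self]
      · right
        refine ⟨z, fun y => ?_⟩
        simp only [izu_wps hO _ g p h, Function.update_self]
    · left
      exact ⟨O P g w, fun y => izu_out hO P g p h w _ hb⟩
  · intro P g g' w hg
    by_cases hE : ∃ p' ∈ E, BPos V p' w
    · obtain ⟨p', h', hb⟩ := hE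
      rcases hb with ⟨u, v, b, rfl⟩ | ⟨z, rfl⟩
      · rw [izu_pos hO _ g p' h', izu_pos hO _ g' p' h']
      · rw [izu_wps hO _ g p' h', izu_wps hO _ g' p' h']
    · have hE' : ∀ p' ∈ E, ¬ BPos V p' w := fun p' h' hb => hE ⟨p', h', hb⟩
      rw [hO.out w hE', hO.out w hE', hg]

end Pool.Agent.H32.IP
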